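import Mathlib

/-!
# Crossed products by countable groups and the UCT problem

Definitions and proofs for `Pool.Agent.Results.MP_d97caa_an.GroupsAndUCT`.

`C` is Kasparov's category `KK` of the separable C*-algebras, with the groups `KK(A, B)` as morphisms;
it is a triangulated category.
-/

set_option autoImplicit false

namespace Pool.Agent.H92.UCTGroups

open CategoryTheory Limits Pretriangulated

universe w w' v u

/-- The Haagerup property (a-T-menability) of a countable group: there is a conditionally negative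
definite function `ψ` on `Γ` which is proper. All countable amenable groups and all countable free
groups have it. -/
def Haagerup (Γ : Type) [Group Γ] : Prop :=
  ∃ ψ : Γ → ℝ, ψ 1 = 0 ∧ (∀ g, ψ g⁻¹ = ψ g) ∧
    (∀ (s : Finset Γ) (c : Γ → ℝ), ∑ g ∈ s, c g = 0 →
      ∑ g ∈ s, ∑ h ∈ s, c g * c h * ψ (g⁻¹ * h) ≤ 0) ∧
    ∀ R : ℝ, {g | ψ g ≤ R}.Finite

variable {C : Type u} [Category.{v} C] [Preadditive C] [HasZeroObject C] [HasShift C ℤ]
  [∀ n : ℤ, (shiftFunctor C n).Additive] [Pretriangulated C]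

/-- `P` is a localizing subcategory: a triangulated subcategory which is closed under isomorphisms
and countable coproducts. -/
structure IsLocalizing (P : ObjectProperty C) : Prop where
  tri : P.IsTriangulated
  iso : P.IsClosedUnderIsomorphisms
  coprod : ∀ {J : Type} [Countable J] (X : J → C) (c : Cofan X), Nonempty (IsColimit c) →
    (∀ j, P (X j)) → P c.pt

/-- `Y` lies in the localizing subcategory generated by `X`. -/
def InLoc (X Y : C) : Prop := ∀ P : ObjectProperty C, IsLocalizing P → P X → P Y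

variable (C) in
/-- The data: `C` is the category `KK` of the separable C*-algebras. -/
structure KKTheory where
  /-- the nuclear C*-algebras -/
  Nuc : C → Prop
  /-- K-theory, `K_*(A) = K_0(A) ⊕ K_1(A)` -/
  K : C ⥤ AddCommGrpCat.{w}
  /-- the actions of the countable discrete group `Γ` on separable nuclear C*-algebras -/
  Act : (Γ : Type) → [Group Γ] → Type w'
  /-- the C*-algebra on which the group acts -/
  alg : {Γ : Type} → [Group Γ] → Act Γ → C
  /-- the (reduced) crossed product -/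
  cp : {Γ : Type} → [Group Γ] → Act Γ → C
  /-- the restriction of an action to a subgroup -/
  res : {Γ : Type} → [Group Γ] → (H : Subgroup Γ) → Act Γ → Act H

namespace KKTheory

variable (T : KKTheory.{w, w'} C)

/-- `A` satisfies the UCT: `KK(A, B) = 0` whenever `K_*(B) = 0`. -/
def UCT (A : C) : Prop := ∀ B : C, Subsingleton (T.K.obj B) → ∀ f : A ⟶ B, f = 0

/-- Q1: every separable nuclear C*-algebra satisfies the UCT. -/
def Q1 : Prop := ∀ A, T.Nuc A → T.UCT A

/-- The separable nuclear C*-algebras `A` such that the multiplication with `p` is invertible on `A`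
(equivalently `A` is KK-equivalent to `A ⊗ M_{p^∞}`) satisfy the UCT. -/
def Away (p : ℕ) : Prop := ∀ A, T.Nuc A → IsIso (p • 𝟙 A) → T.UCT A

/-- Crossed products by `Γ` preserve the UCT: for all actions of `Γ` on separable nuclear
C*-algebras `A`, if `A` satisfies the UCT then so does the crossed product. -/
def Preserves (Γ : Type) [Group Γ] : Prop := ∀ α : T.Act Γ, T.UCT (T.alg α) → T.UCT (T.cp α)

/-- The crossed products of the KK-contractible separable nuclear C*-algebras by `Γ` satisfy the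
UCT. -/
def PreservesZero (Γ : Type) [Group Γ] : Prop := ∀ α : T.Act Γ, IsZero (T.alg α) → T.UCT (T.cp α)

/-- The crossed products by `Γ` of all separable nuclear C*-algebras which are KK-equivalent to `A₀`
satisfy the UCT. -/
def PreservesAt (A₀ : C) (Γ : Type) [Group Γ] : Prop :=
  ∀ α : T.Act Γ, Nonempty (T.alg α ≅ A₀) → T.UCT (T.cp α)

/-- Facts about the category `KK` and crossed products; all of them are published. -/
structure Facts : Prop where
  /-- Bott periodicity: `K_*(A[n]) ≅ K_*(A)`. -/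
  bott : ∀ n : ℤ, Nonempty (shiftFunctor C n ⋙ T.K ≅ T.K)
  /-- Crossed products of nuclear C*-algebras by finite groups are nuclear. -/
  nuc_cp : ∀ (Γ : Type) [Group Γ] [Finite Γ] (α : T.Act Γ), T.Nuc (T.cp α)
  /-- Every C*-algebra has an action of `Γ`, for instance the trivial one. -/
  act_trivial : ∀ (Γ : Type) [Group Γ] [Countable Γ] (A : C), T.Nuc A →
    ∃ α : T.Act Γ, Nonempty (T.alg α ≅ A)
  /-- Direct sums of actions. -/
  act_sum : ∀ (Γ : Type) [Group Γ] [Countable Γ] (α β : T.Act Γ), ∃ γ : T.Act Γ,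
    Nonempty (T.alg γ ≅ T.alg α ⊞ T.alg β) ∧ Nonempty (T.cp γ ≅ T.cp α ⊞ T.cp β)
  /-- Restriction to a subgroup does not change the C*-algebra. -/
  alg_res : ∀ (Γ : Type) [Group Γ] [Countable Γ] (H : Subgroup Γ) (α : T.Act Γ),
    Nonempty (T.alg (T.res H α) ≅ T.alg α)
  /-- The crossed product by the trivial group. -/
  cp_trivial : ∀ (Γ : Type) [Group Γ] [Subsingleton Γ] (α : T.Act Γ),
    Nonempty (T.cp α ≅ T.alg α)
  /-- Green's imprimitivity theorem. For an action `β` of `H ≤ Γ` on `B` the induced action of `Γ`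
  lives on `c₀(Γ/H, B)`, the direct sum of `Γ/H` copies of `B`, and the crossed products are Morita
  equivalent. -/
  green : ∀ (Γ : Type) [Group Γ] [Countable Γ] (H : Subgroup Γ) (β : T.Act H),
    ∃ (α : T.Act Γ) (ι : Γ ⧸ H → (T.alg β ⟶ T.alg α)),
      Nonempty (IsColimit (Cofan.mk (T.alg α) ι)) ∧ Nonempty (T.cp α ≅ T.cp β)
  /-- Iterated crossed products (Green, Packer–Raeburn): for `N` normal in the finite group `Γ`,
  `Γ/N` acts on (the stabilization of) `A ⋊ N` with crossed product `A ⋊ Γ`. -/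
  iterated : ∀ (Γ : Type) [Group Γ] [Finite Γ] (N : Subgroup Γ) [N.Normal] (α : T.Act Γ),
    ∃ β : T.Act (Γ ⧸ N), Nonempty (T.alg β ≅ T.cp (T.res N α)) ∧ Nonempty (T.cp β ≅ T.cp α)
  /-- Higson–Kasparov, Meyer–Nest: if `Γ` has the Haagerup property then `A ⋊ Γ` lies in the
  localizing subcategory generated by the crossed products `A ⋊ H`, `H` a finite subgroup. -/
  baumConnes : ∀ (Γ : Type) [Group Γ] [Countable Γ], Haagerup Γ → ∀ (α : T.Act Γ)
    (P : ObjectProperty C), IsLocalizing P →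
    (∀ H : Subgroup Γ, Finite H → P (T.cp (T.res H α))) → P (T.cp α)
  /-- The dual action. Let `Γ` have prime order `p`. The generator of the dual group acts on `A ⋊ Γ`
  by `χ` with `χ ^ p = 1`, and the cone of `1 - χ` is (up to suspension) the mapping torus of the
  action of the generator of `Γ` on `A`. -/
  dual : ∀ (Γ : Type) [Group Γ] (p : ℕ), p.Prime → Nat.card Γ = p → ∀ α : T.Act Γ,
    ∃ (χ : End (T.cp α)) (E : C) (g : T.cp α ⟶ E) (h : E ⟶ (T.cp α)⟦(1 : ℤ)⟧),
      χ ^ p = 1 ∧ Triangle.mk (1 - χ : End (T.cp α)) g h ∈ distTriang C ∧ InLoc (T.alg α) E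
  /-- `L = A ⊗ M_{p^∞}`, `N = A ⊗ D` with `D` the mapping cone of `ℂ → M_{p^∞}`, so that
  `K_*(D) = ℤ[1/p]/ℤ` up to the degree. The multiplication with `p` is invertible on `L`, the
  multiplication with a prime `q ≠ p` is invertible on `N`, and `N` is built from the cone of the
  multiplication with `p` on `A` by extensions and inductive limits. -/
  away : ∀ (p : ℕ), p.Prime → ∀ A : C, T.Nuc A →
    ∃ (L N D : C) (i : A ⟶ L) (j : L ⟶ N) (k : N ⟶ A⟦(1 : ℤ)⟧) (g : A ⟶ D)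
      (h : D ⟶ A⟦(1 : ℤ)⟧),
      Triangle.mk i j k ∈ distTriang C ∧ Triangle.mk (p • 𝟙 A) g h ∈ distTriang C ∧
      T.Nuc L ∧ T.Nuc N ∧ IsIso (p • 𝟙 L) ∧ (∀ q : ℕ, q.Prime → q ≠ p → IsIso (q • 𝟙 N)) ∧
      InLoc D N
  /-- Barlak–Szabó (building on Izumi): if `A` is a separable nuclear C*-algebra on which `p` acts
  invertibly then there is an action of `ℤ/p` on a KK-contractible algebra (`𝓞_2`) such that the
  crossed product is KK-equivalent to `A`. Here we only use that `A` is a direct summand. -/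
  barlakSzabo : ∀ (Γ : Type) [Group Γ] (p : ℕ), p.Prime → Nat.card Γ = p → ∀ A : C, T.Nuc A →
    IsIso (p • 𝟙 A) → ∃ β : T.Act Γ, IsZero (T.alg β) ∧ Nonempty (Retract A (T.cp β))

variable {T}

/-- the algebras without K-theory -/
def KZero (T : KKTheory.{w, w'} C) : ObjectProperty C := fun B => Subsingleton (T.K.obj B)

theorem uct_iff (A : C) : T.UCT A ↔ T.KZero.leftOrthogonal A :=
  ⟨fun h B f hB => h B hB f, fun h B hB f => h f hB⟩

theorem kzero_shift (hT : T.Facts) (B : C) (n : ℤ) (hB : Subsingleton (T.K.obj B)) :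
    Subsingleton (T.K.obj (B⟦n⟧)) := by
  obtain ⟨e⟩ := hT.bott n
  have e' : T.K.obj (B⟦n⟧) ≅ T.K.obj B := e.app B
  exact (e'.addCommGroupIsoToAddEquiv).toEquiv.subsingleton_congr.2 hB

theorem stable (hT : T.Facts) : T.KZero.IsStableUnderShift ℤ where
  isStableUnderShiftBy n := ⟨fun B hB => kzero_shift hT B n hB⟩

theorem uct_tri (hT : T.Facts) : T.KZero.leftOrthogonal.IsTriangulated := by
  haveI := stable hT
  infer_instance

theorem loc_uct (hT : T.Facts) : IsLocalizing (T.KZero.leftOrthogonal) where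
  tri := uct_tri hT
  iso := inferInstance
  coprod := by
    intro J _ X c hc h Y f hY
    obtain ⟨hc⟩ := hc
    apply Cofan.IsColimit.hom_ext hc
    intro j
    rw [comp_zero]
    exact h j _ hY

theorem uct_iso {A B : C} (e : A ≅ B) (h : T.UCT A) : T.UCT B := by
  rw [uct_iff] at h ⊢
  exact T.KZero.leftOrthogonal.prop_of_iso e h

theorem uct_retract {A B : C} (r : Retract A B) (h : T.UCT B) : T.UCT A := by
  intro X hX f
  have h1 : r.r ≫ f = 0 := h X hX _
  calc f = (r.i ≫ r.r) ≫ f := by rw [r.retract, Category.id_comp]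
    _ = 0 := by rw [Category.assoc, h1, comp_zero]

theorem uct_zero {A : C} (h : IsZero A) : T.UCT A := fun _ _ f => h.eq_of_src f 0

theorem uct_loc (hT : T.Facts) {X Y : C} (h : InLoc X Y) (hX : T.UCT X) : T.UCT Y := by
  rw [uct_iff] at hX ⊢
  exact h _ (loc_uct hT) hX

/-- two out of three: the first object -/
theorem uct_first (hT : T.Facts) {X Y Z : C} {f : X ⟶ Y} {g : Y ⟶ Z} {h : Z ⟶ X⟦(1 : ℤ)⟧}
    (ht : Triangle.mk f g h ∈ distTriang C) (hY : T.UCT Y) (hZ : T.UCT Z) : T.UCT X := by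
  rw [uct_iff] at hY hZ ⊢
  haveI := uct_tri hT
  exact T.KZero.leftOrthogonal.ext_of_isTriangulatedClosed₁ _ ht hY hZ

/-- `(1 - χ) ^ p` is divisible by `p` if `χ ^ p = 1`. -/
theorem exists_pow {X : C} (χ : End X) {p : ℕ} (hp : p.Prime) (h : χ ^ p = 1) :
    ∃ y : End X, (1 - χ) ^ p = (p : End X) * y := by
  have hc : Commute (1 : End X) (-χ) := Commute.one_left _
  obtain ⟨r, hr⟩ := hc.exists_add_pow_prime_eq hp
  rw [← sub_eq_add_neg, one_pow] at hr
  rcases hp.eq_two_or_odd' with rfl | hodd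
  · refine ⟨1 + 1 * (-χ) * r, ?_⟩
    rw [hr, neg_sq, h]
    push_cast
    noncomm_ring
  · refine ⟨1 * (-χ) * r, ?_⟩
    rw [hr, hodd.neg_pow, h]
    noncomm_ring

section cone

variable {X E : C} {u : End X} {g : X ⟶ E} {h : E ⟶ X⟦(1 : ℤ)⟧} {B : C}

theorem inj_one (ht : Triangle.mk (u : X ⟶ X) g h ∈ distTriang C) (hE : ∀ f : E ⟶ B, f = 0)
    (f : X ⟶ B) (hf : (u : X ⟶ X) ≫ f = 0) : f = 0 := by
  obtain ⟨f', hf'⟩ := Triangle.yoneda_exact₂ _ ht f hf
  have h1 : f' = 0 := hE f'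
  rw [hf', h1, comp_zero]
  rfl

theorem inj_pow (ht : Triangle.mk (u : X ⟶ X) g h ∈ distTriang C) (hE : ∀ f : E ⟶ B, f = 0)
    (n : ℕ) (f : X ⟶ B) (hf : (u ^ n : End X) ≫ f = 0) : f = 0 := by
  induction n generalizing f with
  | zero =>
    rw [pow_zero, End.one_def, Category.id_comp] at hf
    exact hf
  | succ n ih =>
    rw [pow_succ, End.mul_def, Category.assoc] at hf
    exact ih f (inj_one ht hE _ hf)

theorem surj_one (ht : Triangle.mk (u : X ⟶ X) g h ∈ distTriang C) (hE : ∀ f : E ⟶ B, f = 0)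
    (f : X⟦(1 : ℤ)⟧ ⟶ B) : ∃ f' : X⟦(1 : ℤ)⟧ ⟶ B, f = (u : X ⟶ X)⟦(1 : ℤ)⟧' ≫ f' := by
  have h1 : h ≫ f = 0 := hE _
  obtain ⟨f', hf'⟩ := Triangle.yoneda_exact₂ _
    (rot_of_distTriang _ (rot_of_distTriang _ ht)) f h1
  refine ⟨-f', ?_⟩
  rw [hf']
  exact (Preadditive.neg_comp _ _).trans (Preadditive.comp_neg _ _).symm

theorem surj_pow (ht : Triangle.mk (u : X ⟶ X) g h ∈ distTriang C) (hE : ∀ f : E ⟶ B, f = 0)
    (n : ℕ) (f : X⟦(1 : ℤ)⟧ ⟶ B) :
    ∃ f' : X⟦(1 : ℤ)⟧ ⟶ B, f = (u ^ n : End X)⟦(1 : ℤ)⟧' ≫ f' := by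
  induction n generalizing f with
  | zero =>
    refine ⟨f, ?_⟩
    rw [pow_zero, End.one_def, CategoryTheory.Functor.map_id, Category.id_comp]
  | succ n ih =>
    obtain ⟨f₁, h₁⟩ := surj_one ht hE f
    obtain ⟨f₂, h₂⟩ := ih f₁
    refine ⟨f₂, ?_⟩
    rw [pow_succ, End.mul_def, Functor.map_comp, Category.assoc, ← h₂, ← h₁]

end cone

theorem natCast_comp {X B : C} (p : ℕ) (f : X ⟶ B) : ((p : End X) : X ⟶ X) ≫ f = p • f := by
  have h : ((p : End X) : X ⟶ X) = p • 𝟙 X := by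
    have h1 : (p : End X) = p • (1 : End X) := by rw [nsmul_eq_mul, mul_one]
    exact h1
  rw [h, Preadditive.nsmul_comp, Category.id_comp]

/-- The key step: if `χ ^ p = 1` and the cone of `1 - χ` satisfies the UCT then so does the cone of
the multiplication with `p`. -/
theorem uct_cone {X E D : C} {p : ℕ} (hp : p.Prime) (χ : End X) (hχ : χ ^ p = 1)
    {g : X ⟶ E} {h : E ⟶ X⟦(1 : ℤ)⟧} (ht : Triangle.mk (1 - χ : End X) g h ∈ distTriang C)
    (hE : T.UCT E) {g' : X ⟶ D} {h' : D ⟶ X⟦(1 : ℤ)⟧}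
    (ht' : Triangle.mk (p • 𝟙 X) g' h' ∈ distTriang C) : T.UCT D := by
  intro B hB f
  obtain ⟨y, hy⟩ := exists_pow χ hp hχ
  have inj : ∀ f : X ⟶ B, p • f = 0 → f = 0 := by
    intro f hf
    refine inj_pow ht (hE B hB) p f ?_
    rw [hy, End.mul_def, Category.assoc, natCast_comp, hf, comp_zero]
  have surj : ∀ f : X⟦(1 : ℤ)⟧ ⟶ B, ∃ f' : X⟦(1 : ℤ)⟧ ⟶ B, f = p • f' := by
    intro f
    obtain ⟨f₁, h₁⟩ := surj_pow ht (hE B hB) p f
    refine ⟨(y : X ⟶ X)⟦(1 : ℤ)⟧' ≫ f₁, ?_⟩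
    rw [h₁, hy, End.mul_def, Functor.map_comp, Category.assoc]
    have h2 : (((p : End X) : X ⟶ X)⟦(1 : ℤ)⟧') = p • 𝟙 _ := by
      have h3 := natCast_comp p (𝟙 X)
      rw [Category.comp_id] at h3
      rw [h3, Functor.map_nsmul, CategoryTheory.Functor.map_id]
    rw [h2, Preadditive.nsmul_comp, Category.id_comp, Preadditive.comp_nsmul]
  have h1 : g' ≫ f = 0 := by
    apply inj
    have h2 : (p • 𝟙 X) ≫ g' = 0 := comp_distTriang_mor_zero₁₂ _ ht'
    rw [Preadditive.nsmul_comp, Category.id_comp] at h2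
    rw [← Preadditive.nsmul_comp, h2, zero_comp]
  obtain ⟨f₁, h₁⟩ := Triangle.yoneda_exact₃ _ ht' f h1
  obtain ⟨f₂, h₂⟩ := surj f₁
  have h3 : h' ≫ (p • 𝟙 X)⟦(1 : ℤ)⟧' = 0 := comp_distTriang_mor_zero₃₁ _ ht'
  rw [Functor.map_nsmul, CategoryTheory.Functor.map_id, Preadditive.comp_nsmul, Category.comp_id] at h3
  have h4 : f = h' ≫ f₁ := h₁
  rw [h4, h₂, Preadditive.comp_nsmul, ← Preadditive.nsmul_comp, h3, zero_comp]

/-! ### the theorem -/

theorem away_two (hT : T.Facts) {p q : ℕ} (hp : p.Prime) (hq : q.Prime) (hpq : p ≠ q)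
    (h1 : T.Away p) (h2 : T.Away q) : T.Q1 := by
  intro A hA
  obtain ⟨L, N, D, i, j, k, g, h, ht, -, hL, hN, hpL, hqN, -⟩ := hT.away p hp A hA
  exact uct_first hT ht (h1 L hL hpL) (h2 N hN (hqN q hq hpq.symm))

theorem preserves_prime (hT : T.Facts) {p : ℕ} (hp : p.Prime) (h : T.Away p) (Γ : Type) [Group Γ]
    (hΓ : Nat.card Γ = p) : T.Preserves Γ := by
  intro α hα
  haveI : Finite Γ := Nat.finite_of_card_ne_zero (by rw [hΓ]; exact hp.ne_zero)
  obtain ⟨χ, E, g, k, hχ, ht, hE⟩ := hT.dual Γ p hp hΓ α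
  obtain ⟨L, N, D, i, j, k', g', h', ht', ht'', hL, hN, hpL, -, hN'⟩ :=
    hT.away p hp (T.cp α) (hT.nuc_cp Γ α)
  have hD : T.UCT D := uct_cone hp χ hχ ht (uct_loc hT hE hα) ht''
  exact uct_first hT ht' (h L hL hpL) (uct_loc hT hN' hD)

theorem preserves_trivial (hT : T.Facts) (Γ : Type) [Group Γ] [Subsingleton Γ] :
    T.Preserves Γ := by
  intro α hα
  obtain ⟨e⟩ := hT.cp_trivial Γ α
  exact uct_iso e.symm hα

theorem preserves_pgroup (hT : T.Facts) {p : ℕ} (hp : p.Prime) (h : T.Away p) (n : ℕ) :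
    ∀ (Γ : Type) [Group Γ], Nat.card Γ = p ^ n → T.Preserves Γ := by
  induction n with
  | zero =>
    intro Γ _ hΓ
    rw [pow_zero, Nat.card_eq_one_iff_unique] at hΓ
    haveI := hΓ.1
    exact preserves_trivial hT Γ
  | succ n ih =>
    intro Γ _ hΓ α hα
    haveI : Fact p.Prime := ⟨hp⟩
    haveI : Finite Γ := Nat.finite_of_card_ne_zero (by rw [hΓ]; exact (pow_pos hp.pos _).ne')
    haveI : Nontrivial Γ := by
      rw [← Finite.one_lt_card_iff_nontrivial, hΓ]
      exact Nat.one_lt_pow n.succ_ne_zero hp.one_lt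
    have hpg : IsPGroup p Γ := IsPGroup.of_card hΓ
    haveI : Nontrivial (Subgroup.center Γ) := hpg.center_nontrivial
    -- an element of order `p` in the centre
    have hdvd : p ∣ Nat.card (Subgroup.center Γ) := by
      obtain ⟨m, hm⟩ := (hpg.to_subgroup (Subgroup.center Γ)).exists_card_eq
      have h1 : 1 < Nat.card (Subgroup.center Γ) := Finite.one_lt_card
      rw [hm] at h1 ⊢
      refine dvd_pow_self p ?_
      rintro rfl
      simp at h1
    obtain ⟨z, hz⟩ := exists_prime_orderOf_dvd_card' p hdvd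
    obtain ⟨N, hN⟩ : ∃ N : Subgroup Γ, N = Subgroup.zpowers (z : Γ) := ⟨_, rfl⟩
    haveI hnorm : N.Normal := by
      refine ⟨fun x hx y => ?_⟩
      have hx' : x ∈ Subgroup.center Γ := by
        rw [hN] at hx
        exact (Subgroup.zpowers_le.2 z.2) hx
      rw [Subgroup.mem_center_iff] at hx'
      rw [hx' y, mul_inv_cancel_right]
      exact hx
    have hcN : Nat.card N = p := by
      rw [hN, Nat.card_zpowers, Subgroup.orderOf_coe, hz]
    have hcQ : Nat.card (Γ ⧸ N) = p ^ n := by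
      have h1 := Subgroup.card_eq_card_quotient_mul_card_subgroup N
      rw [hΓ, hcN, pow_succ] at h1
      exact (Nat.eq_of_mul_eq_mul_right hp.pos h1).symm
    obtain ⟨β, ⟨e1⟩, ⟨e2⟩⟩ := hT.iterated Γ N α
    obtain ⟨e3⟩ := hT.alg_res Γ N α
    refine uct_iso e2 (ih (Γ ⧸ N) hcQ β (uct_iso e1.symm ?_))
    exact preserves_prime hT hp h N hcN _ (uct_iso e3.symm hα)

theorem isZero_coprod {J : Type} {A : C} (Y : C) (ι : J → (A ⟶ Y)) (hA : IsZero A)
    (hc : IsColimit (Cofan.mk Y ι)) : IsZero Y := by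
  rw [IsZero.iff_id_eq_zero]
  apply Cofan.IsColimit.hom_ext hc
  intro j
  exact hA.eq_of_src _ _

theorem zero_subgroup (hT : T.Facts) (Γ : Type) [Group Γ] [Countable Γ] (H : Subgroup Γ)
    (h : T.PreservesZero Γ) : T.PreservesZero H := by
  intro β hβ
  obtain ⟨α, ι, ⟨hc⟩, ⟨e⟩⟩ := hT.green Γ H β
  exact uct_iso e (h α (isZero_coprod _ ι hβ hc))

theorem away_of_zero (hT : T.Facts) {p : ℕ} (hp : p.Prime) (Γ : Type) [Group Γ]
    (hΓ : Nat.card Γ = p) (h : T.PreservesZero Γ) : T.Away p := by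
  intro A hA hpA
  obtain ⟨β, hβ, ⟨r⟩⟩ := hT.barlakSzabo Γ p hp hΓ A hA hpA
  exact uct_retract r (h β hβ)

theorem zero_of_preserves {Γ : Type} [Group Γ] (h : T.Preserves Γ) : T.PreservesZero Γ :=
  fun α hα => h α (uct_zero hα)

theorem away_of_order (hT : T.Facts) (Γ : Type) [Group Γ] [Countable Γ] (h : T.PreservesZero Γ)
    {p : ℕ} (hp : p.Prime) (hg : ∃ g : Γ, orderOf g = p) : T.Away p := by
  obtain ⟨g, hg⟩ := hg
  exact away_of_zero hT hp (Subgroup.zpowers g) (by rw [Nat.card_zpowers, hg])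
    (zero_subgroup hT Γ _ h)

/-- finite groups -/
theorem preserves_finite (hT : T.Facts) (Γ : Type) [Group Γ] [Finite Γ]
    (h : ∀ p : ℕ, p.Prime → (∃ g : Γ, orderOf g = p) → T.Away p) : T.Preserves Γ := by
  by_cases h1 : ∃ p q : ℕ, p.Prime ∧ q.Prime ∧ p ≠ q ∧ p ∣ Nat.card Γ ∧ q ∣ Nat.card Γ
  · obtain ⟨p, q, hp, hq, hpq, hp', hq'⟩ := h1
    haveI : Fact p.Prime := ⟨hp⟩
    haveI : Fact q.Prime := ⟨hq⟩
    have h2 := away_two hT hp hq hpq (h p hp (exists_prime_orderOf_dvd_card' p hp'))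
      (h q hq (exists_prime_orderOf_dvd_card' q hq'))
    exact fun α _ => h2 _ (hT.nuc_cp Γ α)
  · push Not at h1
    by_cases h2 : Nat.card Γ = 1
    · rw [Nat.card_eq_one_iff_unique] at h2
      haveI := h2.1
      exact preserves_trivial hT Γ
    · obtain ⟨p, hp, hpd⟩ := Nat.exists_prime_and_dvd h2
      haveI : Fact p.Prime := ⟨hp⟩
      have h3 : Nat.card Γ = p ^ (Nat.card Γ).primeFactorsList.length := by
        apply Nat.eq_prime_pow_of_unique_prime_dvd Nat.card_pos.ne'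
        intro q hq hqd
        by_contra hne
        exact h1 p q hp hq (fun e => hne e.symm) hpd hqd
      exact preserves_pgroup hT hp (h p hp (exists_prime_orderOf_dvd_card' p hpd)) _ Γ h3

theorem preserves_of_away (hT : T.Facts) (Γ : Type) [Group Γ] [Countable Γ] (hΓ : Haagerup Γ)
    (h : ∀ p : ℕ, p.Prime → (∃ g : Γ, orderOf g = p) → T.Away p) : T.Preserves Γ := by
  intro α hα
  rw [uct_iff]
  apply hT.baumConnes Γ hΓ α _ (loc_uct hT)
  intro H hH
  rw [← uct_iff]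
  obtain ⟨e⟩ := hT.alg_res Γ H α
  refine preserves_finite hT H ?_ _ (uct_iso e.symm hα)
  rintro p hp ⟨g, hg⟩
  exact h p hp ⟨g, by rw [Subgroup.orderOf_coe, hg]⟩

/-- The equivalence for one group. -/
theorem tfae (hT : T.Facts) (Γ : Type) [Group Γ] [Countable Γ] (hΓ : Haagerup Γ) :
    List.TFAE [T.Preserves Γ, T.PreservesZero Γ,
      ∀ p : ℕ, p.Prime → (∃ g : Γ, orderOf g = p) → T.Away p] := by
  tfae_have 1 → 2 := zero_of_preserves
  tfae_have 2 → 3 := fun h p hp hg => away_of_order hT Γ h hp hg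
  tfae_have 3 → 1 := preserves_of_away hT Γ hΓ
  tfae_finish

theorem zero_of_at (hT : T.Facts) {Γ : Type} [Group Γ] [Countable Γ] {A₀ : C} (hA : T.Nuc A₀)
    (h : T.PreservesAt A₀ Γ) : T.PreservesZero Γ := by
  intro β hβ
  obtain ⟨α, ⟨e⟩⟩ := hT.act_trivial Γ A₀ hA
  obtain ⟨γ, ⟨e1⟩, ⟨e2⟩⟩ := hT.act_sum Γ β α
  have h1 : T.UCT (T.cp γ) := by
    refine h γ ⟨e1 ≪≫ ?_⟩
    exact (biprod.mapIso (IsZero.isoZero hβ) e) ≪≫ (isoZeroBiprod (isZero_zero C)).symm
  refine uct_retract ⟨biprod.inl, biprod.fst, ?_⟩ (uct_iso e2 h1)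
  exact biprod.inl_fst

/-- The equivalences for one group, with actions on algebras in a fixed KK-class. -/
theorem tfae' (hT : T.Facts) (Γ : Type) [Group Γ] [Countable Γ] (hΓ : Haagerup Γ) (A₀ : C)
    (hA : T.Nuc A₀) (hA' : T.UCT A₀) :
    List.TFAE [T.Preserves Γ, T.PreservesZero Γ, T.PreservesAt A₀ Γ,
      ∀ p : ℕ, p.Prime → (∃ g : Γ, orderOf g = p) → T.Away p] := by
  tfae_have 1 → 3 := by
    rintro h α ⟨e⟩
    exact h α (uct_iso e.symm hA')
  tfae_have 3 → 2 := zero_of_at hT hA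
  tfae_have 2 → 4 := fun h p hp hg => away_of_order hT Γ h hp hg
  tfae_have 4 → 1 := preserves_of_away hT Γ hΓ
  tfae_finish

theorem away_of_Q1 (h : T.Q1) (p : ℕ) : T.Away p := fun A hA _ => h A hA

theorem two_primes (hT : T.Facts) (Γ : Type) [Group Γ] [Countable Γ] (hΓ : Haagerup Γ)
    {p q : ℕ} (hp : p.Prime) (hq : q.Prime) (hpq : p ≠ q) (hp' : ∃ g : Γ, orderOf g = p)
    (hq' : ∃ g : Γ, orderOf g = q) : T.Preserves Γ ↔ T.Q1 := by
  have h0 : T.Preserves Γ ↔ ∀ p : ℕ, p.Prime → (∃ g : Γ, orderOf g = p) → T.Away p :=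
    (tfae hT Γ hΓ).out 0 2
  rw [h0]
  exact ⟨fun h => away_two hT hp hq hpq (h p hp hp') (h q hq hq'), fun h p _ _ => away_of_Q1 h p⟩

theorem preserves_iff (hT : T.Facts) (Γ : Type) [Group Γ] [Countable Γ] (hΓ : Haagerup Γ) :
    T.Preserves Γ ↔ ∀ p : ℕ, p.Prime → (∃ g : Γ, orderOf g = p) → T.Away p :=
  (tfae hT Γ hΓ).out 0 2

theorem order_prime {Γ : Type} [Group Γ] {g : Γ} (hg : IsOfFinOrder g) {q : ℕ}
    (hqd : q ∣ orderOf g) : ∃ g' : Γ, orderOf g' = q := by
  have h1 : orderOf g ≠ 0 := hg.orderOf_pos.ne'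
  refine ⟨g ^ (orderOf g / q), ?_⟩
  rw [orderOf_pow_of_dvd _ (Nat.div_dvd_of_dvd hqd), Nat.div_div_self hqd h1]
  intro h2
  have h3 := Nat.div_mul_cancel hqd
  rw [h2, zero_mul] at h3
  exact h1 h3.symm

/-- The trichotomy. -/
theorem trichotomy (hT : T.Facts) :
    (T.Q1 ∧ ∀ (Γ : Type) [Group Γ] [Countable Γ], Haagerup Γ → T.Preserves Γ) ∨
    (¬ T.Q1 ∧ ∃ p : ℕ, p.Prime ∧ ∀ (Γ : Type) [Group Γ] [Countable Γ], Haagerup Γ →
      (T.Preserves Γ ↔ ∀ g : Γ, IsOfFinOrder g → ∃ n : ℕ, orderOf g = p ^ n)) ∨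
    (¬ T.Q1 ∧ ∀ (Γ : Type) [Group Γ] [Countable Γ], Haagerup Γ →
      (T.Preserves Γ ↔ ∀ g : Γ, IsOfFinOrder g → g = 1)) := by
  by_cases hQ : T.Q1
  · exact Or.inl ⟨hQ, fun Γ _ _ hΓ => (preserves_iff hT Γ hΓ).2 fun p _ _ => away_of_Q1 hQ p⟩
  · right
    by_cases h : ∃ p : ℕ, p.Prime ∧ T.Away p
    · obtain ⟨p, hp, hpA⟩ := h
      refine Or.inl ⟨hQ, p, hp, fun Γ _ _ hΓ => ?_⟩
      rw [preserves_iff hT Γ hΓ]
      constructor
      · intro h g hg
        refine ⟨_, Nat.eq_prime_pow_of_unique_prime_dvd hg.orderOf_pos.ne' ?_⟩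
        intro q hq hqd
        by_contra hne
        exact hQ (away_two hT hp hq (fun e => hne e.symm) hpA (h q hq (order_prime hg hqd)))
      · rintro h q hq ⟨g, hg⟩
        have h1 : IsOfFinOrder g := by
          rw [← orderOf_pos_iff, hg]
          exact hq.pos
        obtain ⟨n, hn⟩ := h g h1
        have h2 : q = p := by
          have h3 : q ∣ p ^ n := by rw [← hn, hg]
          exact (Nat.prime_dvd_prime_iff_eq hq hp).1 (hq.dvd_of_dvd_pow h3)
        rw [h2]
        exact hpA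
    · push Not at h
      refine Or.inr ⟨hQ, fun Γ _ _ hΓ => ?_⟩
      rw [preserves_iff hT Γ hΓ]
      constructor
      · intro h' g hg
        by_contra hne
        have h1 : orderOf g ≠ 1 := fun e => hne (orderOf_eq_one_iff.1 e)
        obtain ⟨q, hq, hqd⟩ := Nat.exists_prime_and_dvd h1
        exact h q hq (h' q hq (order_prime hg hqd))
      · rintro h' q hq ⟨g, hg⟩
        have h1 : IsOfFinOrder g := by
          rw [← orderOf_pos_iff, hg]
          exact hq.pos
        rw [h' g h1, orderOf_one] at hg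
        exact absurd hg.symm hq.ne_one

/-- If Q1 fails then it fails for crossed products of KK-contractible algebras by every group which
has torsion of prime order `p`, for all primes `p` with at most one exception. -/
theorem one_exception (hT : T.Facts) (hQ : ¬ T.Q1) :
    ∃ p₀ : ℕ, ∀ p : ℕ, p.Prime → p ≠ p₀ → ∀ (Γ : Type) [Group Γ] [Countable Γ],
      (∃ g : Γ, orderOf g = p) → ∃ α : T.Act Γ, IsZero (T.alg α) ∧ ¬ T.UCT (T.cp α) := by
  by_cases h : ∃ p : ℕ, p.Prime ∧ T.Away p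
  · obtain ⟨p₀, hp₀, hA⟩ := h
    refine ⟨p₀, fun p hp hne Γ _ _ hg => ?_⟩
    by_contra hcon
    push Not at hcon
    exact hQ (away_two hT hp₀ hp hne.symm hA (away_of_order hT Γ hcon hp hg))
  · push Not at h
    refine ⟨0, fun p hp _ Γ _ _ hg => ?_⟩
    by_contra hcon
    push Not at hcon
    exact h p hp (away_of_order hT Γ hcon hp hg)

end KKTheory

end Pool.Agent.H92.UCTGroups
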